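import Pool.Agent.R884.AL.Main

/-!
# The fixed points of the mean-Aluthge transform are exactly the quasi-normal operators

`H` is an arbitrary complex Hilbert space, `H →L[ℂ] H` the algebra of bounded operators,
`CFC.abs T = (T* T)^{1/2}` and `CFC.sqrt` the positive square root.
-/

namespace Pool.Agent.Results.MP_3feef6_an.FixedPoints

open Pool.Agent.R884.AL

variable {H : Type*} [NormedAddCommGroup H] [InnerProductSpace ℂ H] [CompleteSpace H]

/-- The partial isometry `V` of the canonical polar decomposition `T = V|T|`: the unique `V` with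
`V|T| = T`, `V V* V = V` and `ker V = ker T` (`IsPolarPart T V`; existence and uniqueness is
`existsUnique_polarPart`). -/
noncomputable def polarPart (T : H →L[ℂ] H) : H →L[ℂ] H := (existsUnique_polarPart T).choose

theorem polarPart_spec (T : H →L[ℂ] H) : IsPolarPart T (polarPart T) :=
  (existsUnique_polarPart T).choose_spec.1

/-- The Aluthge transform `Δ(T) = |T|^{1/2} V |T|^{1/2}`. -/
noncomputable def aluthge (T : H →L[ℂ] H) : H →L[ℂ] H :=
  CFC.sqrt (CFC.abs T) * polarPart T * CFC.sqrt (CFC.abs T)

/-- The mean transform `T̂ = (T + |T| V) / 2`. -/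
noncomputable def meanTransform (T : H →L[ℂ] H) : H →L[ℂ] H :=
  (2⁻¹ : ℂ) • (T + CFC.abs T * polarPart T)

/-- The mean-Aluthge transform: the mean transform of the Aluthge transform. -/
noncomputable def meanAluthge (T : H →L[ℂ] H) : H →L[ℂ] H := meanTransform (aluthge T)

/-- `T` is quasi-normal if it commutes with `T* T`. -/
def IsQuasinormal (T : H →L[ℂ] H) : Prop := T * (star T * T) = (star T * T) * T

/-- **Theorem.** On every complex Hilbert space, a bounded operator is a fixed point of the
mean-Aluthge transform if and only if it is quasi-normal. -/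
theorem result (T : H →L[ℂ] H) : meanAluthge T = T ↔ IsQuasinormal T := by
  set V := polarPart T with hVdef
  set A := CFC.abs T with hAdef
  set X := CFC.sqrt A with hXdef
  have hpT := polarPart_spec T
  rw [← hVdef] at hpT
  have hA : 0 ≤ A := CFC.abs_nonneg T
  have hX : 0 ≤ X := CFC.sqrt_nonneg A
  have hXX : X * X = A := CFC.sqrt_mul_sqrt_self A hA
  have hXsa := hX.isSelfAdjoint
  have hVA : V * A = T := hpT.mul_abs
  have hXk : ∀ x, X x = 0 → V x = 0 := by
    intro x hx
    rw [hpT.ker_eq, ← norm_eq_zero, ← norm_abs_apply, ← hAdef, ← hXX,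
      ContinuousLinearMap.mul_apply, hx, map_zero, norm_zero]
  have hAA : A * A = star T * T := CFC.abs_mul_abs T
  have hal : aluthge T = X * V * X := rfl
  constructor
  · intro hfix
    set S := aluthge T with hSdef
    set W := polarPart S with hWdef
    set B := CFC.abs S with hBdef
    have hpS := polarPart_spec S
    rw [← hWdef] at hpS
    have hfix2 : T + T = S + B * W := by
      have h1 : (2⁻¹ : ℂ) • (S + B * W) = T := hfix
      rw [← h1, ← two_smul ℂ, smul_smul]
      norm_num
    have hST : S = T := core hA hX (CFC.abs_nonneg S) hXX hVA.symm hal hpS.mul_abs.symm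
      hpT.partialIsometry hpS.partialIsometry (fun x => (norm_abs_apply T x).symm)
      (fun x => (norm_abs_apply S x).symm) hpT.ker_eq hpS.ker_eq hfix2
    -- `X V X = V X X` hence `X V = V X`
    have hK : X * V - V * X = 0 := by
      refine eq_zero_of_mul hXsa ?_ ?_
      · rw [sub_mul, ← hal, hST, ← hVA, ← hXX, mul_assoc V X X, sub_self]
      · intro x hx
        rw [ContinuousLinearMap.sub_apply, ContinuousLinearMap.mul_apply,
          ContinuousLinearMap.mul_apply, hXk x hx, hx, map_zero, map_zero, sub_zero]
    have hVX : V * X = X * V := (sub_eq_zero.1 hK).symm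
    have hVAc : V * A = A * V := by
      rw [← hXX, ← mul_assoc, hVX, mul_assoc, hVX, mul_assoc]
    rw [IsQuasinormal, ← hAA, ← hVA, hVAc]
    rw [mul_assoc A V (A * A), ← mul_assoc V A A, hVAc, mul_assoc A V A, hVAc]
    simp only [mul_assoc]
  · intro hq
    have hq' : Commute T (star T * T) := hq
    have hTA : A * T = T * A := (hq'.symm.cfcₙ_nnreal NNReal.sqrt).eq
    -- `V A = A V`
    have hK : V * A - A * V = 0 := by
      refine eq_zero_of_mul hA.isSelfAdjoint ?_ ?_
      · rw [sub_mul, mul_assoc A V A, hVA, hTA, sub_self]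
      · intro x hx
        have hVx : V x = 0 := (hpT.ker_eq x).2 ((abs_ker T x).1 hx)
        rw [ContinuousLinearMap.sub_apply, ContinuousLinearMap.mul_apply,
          ContinuousLinearMap.mul_apply, hVx, hx, map_zero, map_zero, sub_zero]
    have hVAc : Commute A V := (sub_eq_zero.1 hK).symm
    have hXV : X * V = V * X := (hVAc.cfcₙ_nnreal NNReal.sqrt).eq
    have hS : aluthge T = T := by
      rw [hal, hXV, mul_assoc, hXX, hVA]
    rw [meanAluthge, hS, meanTransform, ← hAdef, ← hVdef, hVAc.eq, hVA, ← two_smul ℂ, smul_smul]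
    norm_num

end Pool.Agent.Results.MP_3feef6_an.FixedPoints
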